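import Mathlib
import Pool.Agent.V11238.CDM.Main

/-!
# MP_edd14c_al, Q1 (affirmative answer)

There is a variety of commutative ℓ-bimonoids, properly containing the bounded distributive
lattices, in which the complemented Dedekind-MacNeille completions are the injective hulls.
It is generated by the two-element lattice and the four-element complex algebra of the group
with two elements.
-/

set_option autoImplicit false

namespace Pool.Agent.Results.MP_edd14c_al.VarietyExists

open Pool.Agent.V11238.CDM

/-- There is a set `E` of equations whose models among the commutative ℓ-bimonoids properly
include the bounded distributive lattices, and such that every model `A` has a complemented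
Dedekind-MacNeille completion and each such completion is a model of `E` and an injective hull
of `A` among the models of `E`. -/
theorem result.{u} : ∃ E : Set (Tm × Tm),
    (∀ (A : Type u) [LB A], IsBDL A → Models A E) ∧
    (∃ (A : Type u) (_ : LB A), Models A E ∧ ¬ IsBDL A) ∧
    ∀ (A : Type u) [LB A], Models A E →
      (∃ (B : Type u) (_ : LB B) (e : A → B), IsCDM e) ∧
      ∀ (B : Type u) [LB B] (e : A → B), IsCDM e → IsInjectiveHull E e :=
  ⟨Eqs, fun _ _ hA => models_bdl hA, not_bdl, fun A _ hA => main_theorem A hA⟩

end Pool.Agent.Results.MP_edd14c_al.VarietyExists
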